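import Mathlib

namespace Pool.Agent.Results.MP_4e651d_al.Order

open Topology Pointwise

universe u

variable {G : Type u} [Group G] [TopologicalSpace G]

/-- Closed compactly generated subgroups. -/
def KK (G : Type u) [Group G] [TopologicalSpace G] : Set (Subgroup G) :=
  {K | IsClosed (K : Set G) ∧ ∃ S : Set G, IsCompact S ∧ Subgroup.closure S = K}

/-- The discrete residual. -/
def Res (K : Subgroup G) : Subgroup G :=
  sInf {O : Subgroup G | IsOpen (O : Set G) ∧
    ∀ k ∈ K, (fun x => k * x) '' (O : Set G) = (fun x => x * k) '' (O : Set G)}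

/-- The residual order. -/
def Le (K₁ K₂ : Subgroup G) : Prop := K₁ ≤ Res K₂ ∨ K₁ = K₂

open Classical in
/-- The residual hierarchy. -/
noncomputable def Lev (G : Type u) [Group G] [TopologicalSpace G] (α : Ordinal.{0}) :
    Set (Subgroup G) :=
  if α = 0 then {⊥} else if α = 1 then {K | K ∈ KK G ∧ Res K = ⊥} else
    {K | K ∈ KK G ∧ ∀ L ∈ KK G, Le L K → L ≠ K → ∃ β : Set.Iio α, L ∈ Lev G β.1}
termination_by α
decreasing_by exact β.2

/-- The residual rank is well defined. -/
def WellDef (G : Type u) [Group G] [TopologicalSpace G] : Prop :=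
  KK G = ⋃ α < Ordinal.omega.{0} 1, Lev G α

theorem mono {K L : Subgroup G} (h : K ≤ Res L) : Res K ≤ Res L := by
  refine sInf_le_sInf fun O hO => ⟨hO.1, fun k hk => ?_⟩
  have hk' : k ∈ O := Subgroup.mem_sInf.1 (h hk) O hO
  ext y
  constructor
  · rintro ⟨x, hx, rfl⟩
    exact ⟨k * x * k⁻¹, O.mul_mem (O.mul_mem hk' hx) (O.inv_mem hk'), by simp⟩
  · rintro ⟨x, hx, rfl⟩
    exact ⟨k⁻¹ * x * k, O.mul_mem (O.mul_mem (O.inv_mem hk') hx) hk', by simp [mul_assoc]⟩

theorem res_bot [IsTopologicalGroup G] [T2Space G] [LocallyCompactSpace G]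
    [TotallyDisconnectedSpace G] : Res (⊥ : Subgroup G) = ⊥ := by
  refine le_bot_iff.1 fun g hg => by_contra fun hne => ?_
  obtain ⟨C, hC, hC1, hCg⟩ := exists_compact_subset (isOpen_compl_singleton (x := g))
    (x := 1) (fun h => hne (Subgroup.mem_bot.2 (Set.mem_singleton_iff.1 h).symm))
  obtain ⟨W, hW, hW1, hWC⟩ :=
    (loc_compact_Haus_tot_disc_of_zero_dim (H := G)).exists_subset_of_mem_open hC1 isOpen_interior
  have hWc : IsCompact W := hC.of_isClosed_subset hW.1 (hWC.trans interior_subset)
  obtain ⟨V, hV, hVW⟩ := compact_open_separated_mul_right hWc hW.2 le_rfl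
  let O : Subgroup G :=
    { carrier := {x | ∀ w, w ∈ W ↔ w * x ∈ W}
      one_mem' := fun w => by simp
      mul_mem' := fun {a b} ha hb w => by rw [← mul_assoc, ← hb, ← ha]
      inv_mem' := fun {a} ha w => by rw [ha (w * a⁻¹)]; simp }
  have hO : IsOpen (O : Set G) := by
    refine O.isOpen_of_mem_nhds (g := 1) (Filter.mem_of_superset
      (Filter.inter_mem hV (inv_mem_nhds_one G hV)) fun x hx w => ⟨fun h => ?_, fun h => ?_⟩)
    · exact hVW (Set.mul_mem_mul h hx.1)
    · simpa using hVW (Set.mul_mem_mul h hx.2)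
  have := Subgroup.mem_sInf.1 hg O ⟨hO, fun k hk => by simp [Subgroup.mem_bot.1 hk]⟩
  exact hCg (interior_subset (hWC (by simpa using (this 1).1 hW1))) rfl

theorem result (G : Type u) [Group G] [TopologicalSpace G] [IsTopologicalGroup G] [T2Space G]
    [LocallyCompactSpace G] [TotallyDisconnectedSpace G] [SecondCountableTopology G]
    (h : WellDef G) : IsPartialOrder (KK G) fun K L => Le K.1 L.1 := by
  have key : ∀ α, ∀ K ∈ Lev G α, ∀ L ∈ KK G, K ∈ KK G → K ≤ Res L → L ≤ Res K → K = L := by
    intro α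
    induction α using WellFoundedLT.induction with
    | ind α ih =>
    intro K hK L hL hK' h1 h2
    have hb : Res K = ⊥ → K = L := fun hK => by
      have : L = ⊥ := le_bot_iff.1 (hK ▸ h2)
      subst this
      rw [res_bot] at h1
      exact le_bot_iff.1 h1
    rw [Lev] at hK
    split_ifs at hK
    · exact hb (by rw [Set.mem_singleton_iff.1 hK, res_bot])
    · exact hb hK.2
    · by_contra hne
      obtain ⟨β, hβ⟩ := hK.2 L hL (Or.inl h2) (Ne.symm hne)
      exact hne (ih β.1 β.2 L hβ K hK' hL h2 h1).symm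
  exact
    { refl := fun _ => Or.inr rfl
      trans := by
        rintro K L M (h1 | h1) (h2 | h2)
        · exact Or.inl (h1.trans (mono h2))
        · exact Or.inl (h2 ▸ h1)
        · exact Or.inl (h1 ▸ h2)
        · exact Or.inr (h1.trans h2)
      antisymm := by
        rintro K L (h1 | h1) (h2 | h2)
        · have := (Set.ext_iff.1 h K.1).1 K.2
          simp only [Set.mem_iUnion] at this
          obtain ⟨α, -, hα⟩ := this
          exact Subtype.ext (key α _ hα _ L.2 K.2 h1 h2)
        · exact Subtype.ext h2.symm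
        · exact Subtype.ext h1
        · exact Subtype.ext h1 }

end Pool.Agent.Results.MP_4e651d_al.Order
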